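import Pool.Agent.H83.SK.Base
import Pool.Agent.H29.Sep.Rect
import Pool.Agent.H31.EX.ArmReg

/-!
# Site percolation, RSW regime: crossings of all rectangles of bounded aspect ratio, both colours
-/

open MeasureTheory ProbabilityTheory unitInterval

namespace Pool.Agent.H83.SK

open Pool.Agent.H29.Sep

open Pool.Agent.H89.Perc Pool.Agent.H61.NC Pool.Agent.H85.Strict

/-- Long crossings. -/
theorem long_rsw {q : I} {n : ℕ} {c₀ : ℝ} (hc : 0 ≤ c₀)
    (h : c₀ ≤ Pr q {ω | HCross ω 0 (4 * n) 0 n}) (j : ℕ) :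
    c₀ ^ (2 * j + 1) ≤ Pr q {ω | HCross ω 0 ((4 + 3 * j) * n) 0 n} := by
  induction j with
  | zero => simpa using h
  | succ j ih =>
    have hn : (0 : ℤ) ≤ n := by positivity
    have hjn : (0 : ℤ) ≤ (j : ℤ) * n := by positivity
    have hV : c₀ ≤ Pr q {ω | VCross ω ((3 + 3 * j) * n) ((4 + 3 * j) * n) 0 n} := by
      rw [Pr_vcross_eq_hcross]
      have h1 := Pr_hcross_translate (p := q) (a := 0) (b := (n : ℤ)) (c := 0) (d := (n : ℤ)) 0
        ((3 + 3 * j) * n)
      have e1 : (0 : ℤ) + (3 + 3 * j) * n = (3 + 3 * j) * n := by ring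
      have e2 : (n : ℤ) + (3 + 3 * j) * n = (4 + 3 * j) * n := by ring
      rw [e1, e2, add_zero, add_zero] at h1
      rw [h1]
      refine h.trans (Pr_mono fun ω hω => ?_)
      exact HCross.mono hω le_rfl hn (by omega) le_rfl le_rfl
    have hH : c₀ ≤ Pr q {ω | HCross ω ((3 + 3 * j) * n) ((7 + 3 * j) * n) 0 n} := by
      have h1 := Pr_hcross_translate (p := q) (a := 0) (b := 4 * (n : ℤ)) (c := 0) (d := (n : ℤ))
        ((3 + 3 * j) * n) 0
      have e1 : (0 : ℤ) + (3 + 3 * j) * n = (3 + 3 * j) * n := by ring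
      have e2 : 4 * (n : ℤ) + (3 + 3 * j) * n = (7 + 3 * j) * n := by ring
      rw [e1, e2, add_zero, add_zero] at h1
      rw [h1]
      exact h
    have f1 := fkg (p := q) (localOn_hcross 0 ((4 + 3 * (j : ℤ)) * n) 0 n)
      (localOn_vcross ((3 + 3 * (j : ℤ)) * n) ((4 + 3 * (j : ℤ)) * n) 0 n)
      (incr_hcross _ _ _ _) (incr_vcross _ _ _ _)
    have f2 := fkg (p := q) ((localOn_hcross 0 ((4 + 3 * (j : ℤ)) * n) 0 n).inter'
      (localOn_vcross ((3 + 3 * (j : ℤ)) * n) ((4 + 3 * (j : ℤ)) * n) 0 n))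
      (localOn_hcross ((3 + 3 * (j : ℤ)) * n) ((7 + 3 * (j : ℤ)) * n) 0 n)
      ((incr_hcross _ _ _ _).inter (incr_vcross _ _ _ _)) (incr_hcross _ _ _ _)
    have e : c₀ ^ (2 * (j + 1) + 1) = c₀ ^ (2 * j + 1) * c₀ * c₀ := by ring
    rw [e]
    have g1 := (mul_le_mul ih hV hc Pr_nonneg).trans f1
    have g2 := (mul_le_mul g1 hH hc Pr_nonneg).trans f2
    refine g2.trans (Pr_mono ?_)
    rintro ω ⟨⟨w1, w2⟩, w3⟩
    have := hcross_glue (by nlinarith) (by nlinarith) (by nlinarith) hn w1 w2 w3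
    show HCross ω 0 ((4 + 3 * ((j + 1 : ℕ) : ℤ)) * n) 0 n
    have e : (4 + 3 * ((j + 1 : ℕ) : ℤ)) * n = (7 + 3 * (j : ℤ)) * n := by push_cast; ring
    rw [e]
    exact this

/-- Without vertical crossings of two overlapping rectangles and without a horizontal crossing of
the overlap there is no vertical crossing of the union. -/
theorem novcross_glue {ω : Config} {a a' b b' c d : ℤ} (haa : a ≤ a') (hab : a' ≤ b)
    (hbb : b ≤ b') (h1 : ¬ VCross ω a b c d) (h2 : ¬ HCross ω a' b c d)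
    (h3 : ¬ VCross ω a' b' c d) : ¬ VCross ω a b' c d := by
  rintro ⟨u, v, hu, hv, h⟩
  by_cases hA : ∃ w, Conn ω (rect a b' c d) u w ∧ b < w.1
  · by_cases hB : ∃ w, Conn ω (rect a b' c d) u w ∧ w.1 < a'
    · obtain ⟨w, hw, hw'⟩ := hA
      obtain ⟨z, hz, hz'⟩ := hB
      obtain ⟨x, y, hx, hy, hxy, -, -⟩ := (hz.symm.trans hw).cross_x hz'.le hw'.le hab
      refine h2 ⟨x, y, hx, hy, hxy.mono_set ?_⟩
      rintro t ⟨ht, ht'⟩
      simp only [rect, Set.mem_ofPred_eq] at ht ht' ⊢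
      omega
    · push Not at hB
      refine h3 ⟨u, v, hu, hv, ?_⟩
      refine h.induction_right (P := fun y => Conn ω (rect a' b' c d) u y) ?_ ?_
      · refine Conn.refl ?_
        have k1 := h.mem_left
        have k2 := hB u (Conn.refl k1)
        simp only [rect, Set.mem_ofPred_eq] at k1 ⊢
        omega
      · intro x y hx hst ih
        have k1 := hst.2.1
        have k2 := hB y (hx.tail hst)
        refine ih.tail ⟨ih.mem_right, ?_, hst.2.2⟩
        simp only [rect, Set.mem_ofPred_eq] at k1 ⊢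
        omega
  · push Not at hA
    refine h1 ⟨u, v, hu, hv, ?_⟩
    refine h.induction_right (P := fun y => Conn ω (rect a b c d) u y) ?_ ?_
    · refine Conn.refl ?_
      have k1 := h.mem_left
      have k2 := hA u (Conn.refl k1)
      simp only [rect, Set.mem_ofPred_eq] at k1 ⊢
      omega
    · intro x y hx hst ih
      have k1 := hst.2.1
      have k2 := hA y (hx.tail hst)
      refine ih.tail ⟨ih.mem_right, ?_, hst.2.2⟩
      simp only [rect, Set.mem_ofPred_eq] at k1 ⊢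
      omega

theorem decr_novcross (a b c d : ℤ) : Incr {ω | ¬ VCross ω a b c d}ᶜ := by
  have : {ω : Config | ¬ VCross ω a b c d}ᶜ = {ω | VCross ω a b c d} := by
    ext ω
    simp
  rw [this]
  exact incr_vcross a b c d

theorem decr_nohcross (a b c d : ℤ) : Incr {ω | ¬ HCross ω a b c d}ᶜ := by
  have : {ω : Config | ¬ HCross ω a b c d}ᶜ = {ω | HCross ω a b c d} := by
    ext ω
    simp
  rw [this]
  exact incr_hcross a b c d

theorem localOn_novcross (a b c d : ℤ) : LocalOn (eRect a b c d) {ω | ¬ VCross ω a b c d} :=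
  (localOn_vcross a b c d).compl

theorem localOn_nohcross (a b c d : ℤ) : LocalOn (eRect a b c d) {ω | ¬ HCross ω a b c d} :=
  (localOn_hcross a b c d).compl

theorem Pr_novcross_eq {p : I} {a b c d : ℤ} :
    Pr p {ω | ¬ VCross ω c d a b} = Pr p {ω | ¬ HCross ω a b c d} := by
  have h1 := Pr_compl (p := p) (localOn_vcross c d a b)
  have h2 := Pr_compl (p := p) (localOn_hcross a b c d)
  rw [Pr_vcross_eq_hcross] at h1
  exact h1.trans h2.symm

theorem Pr_novcross_translate {p : I} {a b c d : ℤ} (x y : ℤ) :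
    Pr p {ω | ¬ VCross ω (a + x) (b + x) (c + y) (d + y)} = Pr p {ω | ¬ VCross ω a b c d} := by
  have h1 := Pr_compl (p := p) (localOn_vcross (a + x) (b + x) (c + y) (d + y))
  have h2 := Pr_compl (p := p) (localOn_vcross a b c d)
  rw [Pr_vcross_translate] at h1
  exact h1.trans h2.symm

/-- Absence of crossings of long rectangles in the short direction. -/
theorem long_closed {q : I} {n : ℕ} {c₀ : ℝ} (hc : 0 ≤ c₀)
    (h : c₀ ≤ Pr q {ω | ¬ VCross ω 0 (4 * n) 0 n}) (j : ℕ) :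
    c₀ ^ (2 * j + 1) ≤ Pr q {ω | ¬ VCross ω 0 ((4 + 3 * j) * n) 0 n} := by
  induction j with
  | zero => simpa using h
  | succ j ih =>
    have hn : (0 : ℤ) ≤ n := by positivity
    have hjn : (0 : ℤ) ≤ (j : ℤ) * n := by positivity
    have hV : c₀ ≤ Pr q {ω | ¬ HCross ω ((3 + 3 * j) * n) ((4 + 3 * j) * n) 0 n} := by
      rw [← Pr_novcross_eq]
      have h1 := Pr_novcross_translate (p := q) (a := 0) (b := (n : ℤ)) (c := 0) (d := (n : ℤ)) 0
        ((3 + 3 * j) * n)
      have e1 : (0 : ℤ) + (3 + 3 * j) * n = (3 + 3 * j) * n := by ring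
      have e2 : (n : ℤ) + (3 + 3 * j) * n = (4 + 3 * j) * n := by ring
      rw [e1, e2, add_zero, add_zero] at h1
      rw [h1]
      refine h.trans (Pr_mono fun ω hω => ?_)
      exact fun hv => hω (VCross.mono hv le_rfl (by omega) le_rfl hn le_rfl)
    have hH : c₀ ≤ Pr q {ω | ¬ VCross ω ((3 + 3 * j) * n) ((7 + 3 * j) * n) 0 n} := by
      have h1 := Pr_novcross_translate (p := q) (a := 0) (b := 4 * (n : ℤ)) (c := 0) (d := (n : ℤ))
        ((3 + 3 * j) * n) 0
      have e1 : (0 : ℤ) + (3 + 3 * j) * n = (3 + 3 * j) * n := by ring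
      have e2 : 4 * (n : ℤ) + (3 + 3 * j) * n = (7 + 3 * j) * n := by ring
      rw [e1, e2, add_zero, add_zero] at h1
      rw [h1]
      exact h
    have f1 := fkg_decr (p := q) (localOn_novcross 0 ((4 + 3 * (j : ℤ)) * n) 0 n)
      (localOn_nohcross ((3 + 3 * (j : ℤ)) * n) ((4 + 3 * (j : ℤ)) * n) 0 n)
      (decr_novcross _ _ _ _) (decr_nohcross _ _ _ _)
    have f2 := fkg_decr (p := q) ((localOn_novcross 0 ((4 + 3 * (j : ℤ)) * n) 0 n).inter'
      (localOn_nohcross ((3 + 3 * (j : ℤ)) * n) ((4 + 3 * (j : ℤ)) * n) 0 n))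
      (localOn_novcross ((3 + 3 * (j : ℤ)) * n) ((7 + 3 * (j : ℤ)) * n) 0 n)
      (by
        rw [Set.compl_inter]
        exact Incr.union (decr_novcross _ _ _ _) (decr_nohcross _ _ _ _)) (decr_novcross _ _ _ _)
    have e : c₀ ^ (2 * (j + 1) + 1) = c₀ ^ (2 * j + 1) * c₀ * c₀ := by ring
    rw [e]
    have g1 := (mul_le_mul ih hV hc Pr_nonneg).trans f1
    have g2 := (mul_le_mul g1 hH hc Pr_nonneg).trans f2
    refine g2.trans (Pr_mono ?_)
    rintro ω ⟨⟨w1, w2⟩, w3⟩
    have := novcross_glue (by nlinarith) (by nlinarith) (by nlinarith) w1 w2 w3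
    show ¬ VCross ω 0 ((4 + 3 * ((j + 1 : ℕ) : ℤ)) * n) 0 n
    have e : (4 + 3 * ((j + 1 : ℕ) : ℤ)) * n = (7 + 3 * (j : ℤ)) * n := by push_cast; ring
    rw [e]
    exact this

/-- Crossings of all rectangles of aspect ratio at most `K` and height at most `K n`. -/
theorem rect_lower (c : ℝ) (hc : 0 < c) (K : ℕ) : ∃ c' : ℝ, 0 < c' ∧ ∀ (n : ℕ) (q : I), 1 ≤ n →
    RSWreg c n q → ∀ a b y z : ℤ, a ≤ b → y < z → b - a ≤ K * (z - y) → z - y ≤ K * n →
      c' ≤ Pr q {ω | HCross ω a b y z} ∧ c' ≤ Pr q {ω | VCross ω y z a b} := by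
  refine ⟨c ^ (2 * (K * K) + 1), pow_pos hc _, ?_⟩
  intro n q hn hreg a b y z hab hyz h1 h2
  have key : c ^ (2 * (K * K) + 1) ≤ Pr q {ω | HCross ω a b y z} := by
    obtain ⟨h, hh⟩ : ∃ h : ℕ, (h : ℤ) = z - y := ⟨(z - y).toNat, Int.toNat_of_nonneg (by omega)⟩
    have hh1 : 1 ≤ h := by omega
    have hK : h ≤ K * n := by
      have : (h : ℤ) ≤ ((K * n : ℕ) : ℤ) := by push_cast; rw [hh]; exact h2
      exact_mod_cast this
    have hK1 : 1 ≤ K := by
      rcases Nat.eq_zero_or_pos K with h0 | h0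
      · rw [h0, zero_mul] at hK
        omega
      · exact h0
    set m : ℕ := min h n with hm
    have hm1 : 1 ≤ m := le_min hh1 hn
    have hmh : m ≤ h := min_le_left _ _
    have hmn : m ≤ n := min_le_right _ _
    have hhm : h ≤ K * m := by
      rcases min_choice h n with h3 | h3
      · rw [hm, h3]; exact Nat.le_mul_of_pos_left _ hK1
      · rw [hm, h3]; exact hK
    have hlen : b - a ≤ ((4 + 3 * (K * K) : ℕ) : ℤ) * m := by
      have e1 : b - a ≤ K * (h : ℤ) := by rw [hh]; exact h1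
      have e2 : (h : ℤ) ≤ K * (m : ℤ) := by exact_mod_cast hhm
      have e3 : (K : ℤ) * h ≤ K * (K * m) := mul_le_mul_of_nonneg_left e2 (by positivity)
      have e4 : (0 : ℤ) ≤ (K : ℤ) * K * m := by positivity
      have e5 : (0 : ℤ) ≤ (m : ℤ) := by positivity
      push_cast
      nlinarith
    have hl := long_rsw (q := q) (n := m) hc.le (hreg m hm1 hmn).1 (K * K)
    have ht := Pr_hcross_translate (p := q) (a := 0) (b := (4 + 3 * ((K * K : ℕ) : ℤ)) * m) (c := 0)
      (d := (m : ℤ)) a y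
    have e0 : (0 : ℤ) + a = a := zero_add a
    have e0' : (0 : ℤ) + y = y := zero_add y
    rw [e0, e0'] at ht
    refine hl.trans ?_
    rw [← ht]
    refine Pr_mono fun ω hω => ?_
    have hlen' : b ≤ (4 + 3 * ((K * K : ℕ) : ℤ)) * m + a := by
      push_cast at hlen ⊢
      linarith
    have hz : (m : ℤ) + y ≤ z := by
      have : (m : ℤ) ≤ h := by exact_mod_cast hmh
      linarith
    exact HCross.mono hω le_rfl hab hlen' le_rfl hz
  refine ⟨key, ?_⟩
  rw [Pr_vcross_eq_hcross]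
  exact key

/-- Absence of crossings in the short direction, for all rectangles of aspect ratio at most `K` and
height at most `K n`. -/
theorem rect_closed (c : ℝ) (hc : 0 < c) (K : ℕ) : ∃ c' : ℝ, 0 < c' ∧ ∀ (n : ℕ) (q : I), 1 ≤ n →
    RSWreg c n q → ∀ a b y z : ℤ, a ≤ b → y < z → b - a ≤ K * (z - y) → z - y ≤ K * n →
      c' ≤ Pr q {ω | ¬ VCross ω a b y z} ∧ c' ≤ Pr q {ω | ¬ HCross ω y z a b} := by
  refine ⟨c ^ (2 * (K * K) + 1), pow_pos hc _, ?_⟩
  intro n q hn hreg a b y z hab hyz h1 h2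
  have key : c ^ (2 * (K * K) + 1) ≤ Pr q {ω | ¬ VCross ω a b y z} := by
    obtain ⟨h, hh⟩ : ∃ h : ℕ, (h : ℤ) = z - y := ⟨(z - y).toNat, Int.toNat_of_nonneg (by omega)⟩
    have hh1 : 1 ≤ h := by omega
    have hK : h ≤ K * n := by
      have : (h : ℤ) ≤ ((K * n : ℕ) : ℤ) := by push_cast; rw [hh]; exact h2
      exact_mod_cast this
    have hK1 : 1 ≤ K := by
      rcases Nat.eq_zero_or_pos K with h0 | h0
      · rw [h0, zero_mul] at hK
        omega
      · exact h0
    set m : ℕ := min h n with hm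
    have hm1 : 1 ≤ m := le_min hh1 hn
    have hmh : m ≤ h := min_le_left _ _
    have hmn : m ≤ n := min_le_right _ _
    have hhm : h ≤ K * m := by
      rcases min_choice h n with h3 | h3
      · rw [hm, h3]; exact Nat.le_mul_of_pos_left _ hK1
      · rw [hm, h3]; exact hK
    have hlen : b - a ≤ ((4 + 3 * (K * K) : ℕ) : ℤ) * m := by
      have e1 : b - a ≤ K * (h : ℤ) := by rw [hh]; exact h1
      have e2 : (h : ℤ) ≤ K * (m : ℤ) := by exact_mod_cast hhm
      have e3 : (K : ℤ) * h ≤ K * (K * m) := mul_le_mul_of_nonneg_left e2 (by positivity)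
      have e4 : (0 : ℤ) ≤ (K : ℤ) * K * m := by positivity
      have e5 : (0 : ℤ) ≤ (m : ℤ) := by positivity
      push_cast
      nlinarith
    have hl := long_closed (q := q) (n := m) hc.le (hreg m hm1 hmn).2 (K * K)
    have ht := Pr_novcross_translate (p := q) (a := 0) (b := (4 + 3 * ((K * K : ℕ) : ℤ)) * m) (c := 0)
      (d := (m : ℤ)) a y
    have e0 : (0 : ℤ) + a = a := zero_add a
    have e0' : (0 : ℤ) + y = y := zero_add y
    rw [e0, e0'] at ht
    refine hl.trans ?_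
    rw [← ht]
    refine Pr_mono fun ω hω => ?_
    have hlen' : b ≤ (4 + 3 * ((K * K : ℕ) : ℤ)) * m + a := by
      push_cast at hlen ⊢
      linarith
    have hz : (m : ℤ) + y ≤ z := by
      have : (m : ℤ) ≤ h := by exact_mod_cast hmh
      linarith
    exact fun hv => hω (VCross.mono hv le_rfl hlen' le_rfl (by omega) hz)
  refine ⟨key, ?_⟩
  rw [← Pr_novcross_eq]
  exact key

end Pool.Agent.H83.SK
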