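import Pool.Agent.H83.SK.Base
import Pool.Agent.H29.Sep.CircProb
import Pool.Agent.H83.SK.P29.Rect

/-!
# RSW regime: probability of open circuits
-/

open MeasureTheory ProbabilityTheory unitInterval

namespace Pool.Agent.H83.SK

open Pool.Agent.H29.Sep

open Pool.Agent.H89.Perc Pool.Agent.H61.NC

theorem circ_lower (c : ℝ) (hc : 0 < c) (K : ℕ) : ∃ c' : ℝ, 0 < c' ∧ ∀ (n : ℕ) (q : I), 1 ≤ n →
    RSWreg c n q → ∀ (v : Vert) (s : ℕ), 1 ≤ s → s ≤ K * n → c' ≤ Pr q (Circ v s) := by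
  classical
  obtain ⟨c1, hc1, h⟩ := rect_lower c hc (6 * K + 8)
  refine ⟨c1 * (c1 * (c1 * c1)), by positivity, fun n q hn hq v s hs hsK => ?_⟩
  have hs' : (1 : ℤ) ≤ s := by exact_mod_cast hs
  have hsK' : (s : ℤ) ≤ K * n := by exact_mod_cast hsK
  have hn' : (1 : ℤ) ≤ n := by exact_mod_cast hn
  have hK0 : (0 : ℤ) ≤ K := Int.natCast_nonneg K
  have e1 : (6 * s : ℤ) ≤ ((6 * K + 8 : ℕ) : ℤ) * (2 * s - 1) := by
    push_cast
    nlinarith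
  have e2 : (2 * s - 1 : ℤ) ≤ ((6 * K + 8 : ℕ) : ℤ) * n := by
    push_cast
    nlinarith
  have hT := (h n q hn hq (v.1 - 3 * s) (v.1 + 3 * s) (v.2 + s + 1) (v.2 + 3 * s) (by omega)
    (by omega) (by
      have : v.1 + 3 * (s : ℤ) - (v.1 - 3 * s) = 6 * s := by ring
      have h2 : v.2 + 3 * (s : ℤ) - (v.2 + s + 1) = 2 * s - 1 := by ring
      rw [this, h2]
      exact e1) (by
      have h2 : v.2 + 3 * (s : ℤ) - (v.2 + s + 1) = 2 * s - 1 := by ring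
      rw [h2]
      exact e2)).1
  have hB := (h n q hn hq (v.1 - 3 * s) (v.1 + 3 * s) (v.2 - 3 * s) (v.2 - s - 1) (by omega)
    (by omega) (by
      have : v.1 + 3 * (s : ℤ) - (v.1 - 3 * s) = 6 * s := by ring
      have h2 : v.2 - (s : ℤ) - 1 - (v.2 - 3 * s) = 2 * s - 1 := by ring
      rw [this, h2]
      exact e1) (by
      have h2 : v.2 - (s : ℤ) - 1 - (v.2 - 3 * s) = 2 * s - 1 := by ring
      rw [h2]
      exact e2)).1
  have hR := (h n q hn hq (v.2 - 3 * s) (v.2 + 3 * s) (v.1 + s + 1) (v.1 + 3 * s) (by omega)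
    (by omega) (by
      have : v.2 + 3 * (s : ℤ) - (v.2 - 3 * s) = 6 * s := by ring
      have h2 : v.1 + 3 * (s : ℤ) - (v.1 + s + 1) = 2 * s - 1 := by ring
      rw [this, h2]
      exact e1) (by
      have h2 : v.1 + 3 * (s : ℤ) - (v.1 + s + 1) = 2 * s - 1 := by ring
      rw [h2]
      exact e2)).2
  have hL := (h n q hn hq (v.2 - 3 * s) (v.2 + 3 * s) (v.1 - 3 * s) (v.1 - s - 1) (by omega)
    (by omega) (by
      have : v.2 + 3 * (s : ℤ) - (v.2 - 3 * s) = 6 * s := by ring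
      have h2 : v.1 - (s : ℤ) - 1 - (v.1 - 3 * s) = 2 * s - 1 := by ring
      rw [this, h2]
      exact e1) (by
      have h2 : v.1 - (s : ℤ) - 1 - (v.1 - 3 * s) = 2 * s - 1 := by ring
      rw [h2]
      exact e2)).2
  set AT : Set Config := {ω | HCross ω (v.1 - 3 * s) (v.1 + 3 * s) (v.2 + s + 1) (v.2 + 3 * s)}
    with hAT
  set AB : Set Config := {ω | HCross ω (v.1 - 3 * s) (v.1 + 3 * s) (v.2 - 3 * s) (v.2 - s - 1)}
    with hAB
  set AR : Set Config := {ω | VCross ω (v.1 + s + 1) (v.1 + 3 * s) (v.2 - 3 * s) (v.2 + 3 * s)}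
    with hAR
  set AL : Set Config := {ω | VCross ω (v.1 - 3 * s) (v.1 - s - 1) (v.2 - 3 * s) (v.2 + 3 * s)}
    with hAL
  have hEq : Circ v s = AT ∩ (AB ∩ (AR ∩ AL)) := by
    ext ω
    rfl
  have lT := localOn_hcross (v.1 - 3 * s) (v.1 + 3 * s) (v.2 + s + 1) (v.2 + 3 * s)
  have lB := localOn_hcross (v.1 - 3 * s) (v.1 + 3 * s) (v.2 - 3 * s) (v.2 - s - 1)
  have lR := localOn_vcross (v.1 + s + 1) (v.1 + 3 * s) (v.2 - 3 * s) (v.2 + 3 * s)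
  have lL := localOn_vcross (v.1 - 3 * s) (v.1 - s - 1) (v.2 - 3 * s) (v.2 + 3 * s)
  have iT := incr_hcross (v.1 - 3 * s) (v.1 + 3 * s) (v.2 + s + 1) (v.2 + 3 * s)
  have iB := incr_hcross (v.1 - 3 * s) (v.1 + 3 * s) (v.2 - 3 * s) (v.2 - s - 1)
  have iR := incr_vcross (v.1 + s + 1) (v.1 + 3 * s) (v.2 - 3 * s) (v.2 + 3 * s)
  have iL := incr_vcross (v.1 - 3 * s) (v.1 - s - 1) (v.2 - 3 * s) (v.2 + 3 * s)
  have f1 : Pr q AR * Pr q AL ≤ Pr q (AR ∩ AL) := fkg lR lL iR iL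
  have f2 : Pr q AB * Pr q (AR ∩ AL) ≤ Pr q (AB ∩ (AR ∩ AL)) :=
    fkg lB (lR.inter' lL) iB (iR.inter iL)
  have f3 : Pr q AT * Pr q (AB ∩ (AR ∩ AL)) ≤ Pr q (AT ∩ (AB ∩ (AR ∩ AL))) :=
    fkg lT (lB.inter' (lR.inter' lL)) iT (iB.inter (iR.inter iL))
  rw [hEq]
  have g1 : c1 * c1 ≤ Pr q (AR ∩ AL) := (mul_le_mul hR hL hc1.le Pr_nonneg).trans f1
  have g2 : c1 * (c1 * c1) ≤ Pr q (AB ∩ (AR ∩ AL)) :=
    (mul_le_mul hB g1 (by positivity) Pr_nonneg).trans f2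
  exact (mul_le_mul hT g2 (by positivity) Pr_nonneg).trans f3

end Pool.Agent.H83.SK
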