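import Pool.Agent.H83.SK.P29.Rect
import Pool.Agent.H29.Sep.NoArm

/-!
# Site percolation, RSW regime: annuli which are not crossed, one-arm decay
-/

open MeasureTheory ProbabilityTheory unitInterval

namespace Pool.Agent.H83.SK

open Pool.Agent.H29.Sep

open Pool.Agent.H89.Perc Pool.Agent.H61.NC Pool.Agent.H31.EX

lemma noarm_ext {c : ℝ} (hc : 0 < c) (K : ℕ) : ∃ c' : ℝ, 0 < c' ∧ ∀ (n : ℕ) (q : I), 1 ≤ n →
    RSWreg c n q → RSWreg c' (K * n) q := by
  obtain ⟨c', hc', H⟩ := rect_lower c hc (4 + K)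
  obtain ⟨c'', hc'', H'⟩ := rect_closed c hc (4 + K)
  refine ⟨min c' c'', lt_min hc' hc'', fun n q hn h m hm1 hm2 => ?_⟩
  have e1 : ((0 : ℤ)) ≤ 4 * (m : ℤ) := by positivity
  have e2 : (0 : ℤ) < m := by exact_mod_cast hm1
  have e3 : 4 * (m : ℤ) - 0 ≤ ((4 + K : ℕ) : ℤ) * ((m : ℤ) - 0) := by
    push_cast
    nlinarith [mul_nonneg (Int.natCast_nonneg K) (Int.natCast_nonneg m)]
  have e4 : (m : ℤ) - 0 ≤ ((4 + K : ℕ) : ℤ) * (n : ℤ) := by
    have : (m : ℤ) ≤ (K : ℤ) * n := by exact_mod_cast hm2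
    push_cast
    nlinarith [Int.natCast_nonneg n]
  exact ⟨(min_le_left _ _).trans (H n q hn h 0 (4 * m) 0 m e1 e2 e3 e4).1,
    (min_le_right _ _).trans (H' n q hn h 0 (4 * m) 0 m e1 e2 e3 e4).1⟩

/-- An annulus is not crossed if four rectangles are not crossed in the short direction. -/
lemma noarm_det {ω : Config} {v : Vert} {s r : ℕ} (hsr : s ≤ r)
    (h1 : ¬ HCross ω (v.1 + s) (v.1 + r) (v.2 - r) (v.2 + r))
    (h2 : ¬ HCross ω (v.1 - r) (v.1 - s) (v.2 - r) (v.2 + r))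
    (h3 : ¬ VCross ω (v.1 - r) (v.1 + r) (v.2 + s) (v.2 + r))
    (h4 : ¬ VCross ω (v.1 - r) (v.1 + r) (v.2 - r) (v.2 - s)) : ω ∉ ArmBox v s r := by
  rintro ⟨u, hu, w, hw, hc⟩
  obtain ⟨hb, hw⟩ := hw
  simp only [mem_ball] at hu hb
  have hsr' : (s : ℤ) ≤ r := by exact_mod_cast hsr
  rcases hw with h | h | h | h
  · obtain ⟨x, y, hx, hy, hxy, -, -⟩ := hc.symm.cross_x (a := v.1 - r) (b := v.1 - s)
      (by omega) (by omega) (by omega)
    refine h2 ⟨x, y, hx, hy, hxy.mono_set ?_⟩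
    rintro t ⟨ht, ht'⟩
    simp only [mem_ball, rect, Set.mem_ofPred_eq] at ht ht' ⊢
    omega
  · obtain ⟨x, y, hx, hy, hxy, -, -⟩ := hc.cross_x (a := v.1 + s) (b := v.1 + r)
      (by omega) (by omega) (by omega)
    refine h1 ⟨x, y, hx, hy, hxy.mono_set ?_⟩
    rintro t ⟨ht, ht'⟩
    simp only [mem_ball, rect, Set.mem_ofPred_eq] at ht ht' ⊢
    omega
  · obtain ⟨x, y, hx, hy, hxy, -, -⟩ := hc.symm.cross_y (a := v.2 - r) (b := v.2 - s)
      (by omega) (by omega) (by omega)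
    refine h4 ⟨x, y, hx, hy, hxy.mono_set ?_⟩
    rintro t ⟨ht, ht'⟩
    simp only [mem_ball, rect, Set.mem_ofPred_eq] at ht ht' ⊢
    omega
  · obtain ⟨x, y, hx, hy, hxy, -, -⟩ := hc.cross_y (a := v.2 + s) (b := v.2 + r)
      (by omega) (by omega) (by omega)
    refine h3 ⟨x, y, hx, hy, hxy.mono_set ?_⟩
    rintro t ⟨ht, ht'⟩
    simp only [mem_ball, rect, Set.mem_ofPred_eq] at ht ht' ⊢
    omega

/-- Probability of the four events. -/
lemma noarm_four {c₁ : ℝ} (hc : 0 ≤ c₁) {q : I} {v : Vert} {s r : ℕ}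
    (h1 : c₁ ≤ Pr q {ω | ¬ HCross ω (v.1 + s) (v.1 + r) (v.2 - r) (v.2 + r)})
    (h2 : c₁ ≤ Pr q {ω | ¬ HCross ω (v.1 - r) (v.1 - s) (v.2 - r) (v.2 + r)})
    (h3 : c₁ ≤ Pr q {ω | ¬ VCross ω (v.1 - r) (v.1 + r) (v.2 + s) (v.2 + r)})
    (h4 : c₁ ≤ Pr q {ω | ¬ VCross ω (v.1 - r) (v.1 + r) (v.2 - r) (v.2 - s)}) (hsr : s ≤ r) :
    c₁ ^ 4 ≤ Pr q (ArmBox v s r)ᶜ := by
  have h12 := fkg_decr (p := q) (localOn_nohcross (v.1 + s) (v.1 + r) (v.2 - r) (v.2 + r))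
    (localOn_nohcross (v.1 - r) (v.1 - s) (v.2 - r) (v.2 + r)) (decr_nohcross _ _ _ _)
    (decr_nohcross _ _ _ _)
  have h34 := fkg_decr (p := q) (localOn_novcross (v.1 - r) (v.1 + r) (v.2 + s) (v.2 + r))
    (localOn_novcross (v.1 - r) (v.1 + r) (v.2 - r) (v.2 - s)) (decr_novcross _ _ _ _)
    (decr_novcross _ _ _ _)
  have h1234 := fkg_decr (p := q)
    ((localOn_nohcross (v.1 + s) (v.1 + r) (v.2 - r) (v.2 + r)).inter'
      (localOn_nohcross (v.1 - r) (v.1 - s) (v.2 - r) (v.2 + r)))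
    ((localOn_novcross (v.1 - r) (v.1 + r) (v.2 + s) (v.2 + r)).inter'
      (localOn_novcross (v.1 - r) (v.1 + r) (v.2 - r) (v.2 - s)))
    (by
      rw [Set.compl_inter]
      exact Incr.union (decr_nohcross _ _ _ _) (decr_nohcross _ _ _ _))
    (by
      rw [Set.compl_inter]
      exact Incr.union (decr_novcross _ _ _ _) (decr_novcross _ _ _ _))
  have h12' := (mul_le_mul h1 h2 hc Pr_nonneg).trans h12
  have h34' := (mul_le_mul h3 h4 hc Pr_nonneg).trans h34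
  have h' := (mul_le_mul h12' h34' (by positivity) Pr_nonneg).trans h1234
  have e : c₁ ^ 4 = c₁ * c₁ * (c₁ * c₁) := by ring
  rw [e]
  refine h'.trans (Pr_mono ?_)
  rintro ω ⟨⟨w1, w2⟩, ⟨w3, w4⟩⟩
  exact noarm_det hsr w1 w2 w3 w4

/-- The annulus `ball v (3 s)` minus `ball v s` is not crossed with positive probability. -/
theorem noarm_lower (c : ℝ) (hc : 0 < c) (K : ℕ) : ∃ c' : ℝ, 0 < c' ∧ ∀ (n : ℕ) (q : I), 1 ≤ n →
    RSWreg c n q → ∀ (v : Vert) (s : ℕ), 1 ≤ s → s ≤ K * n →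
      c' ≤ Pr q {ω | ¬ ∃ u ∈ ball v s, ∃ u' ∈ sphere v (3 * s), Conn ω (ball v (3 * s)) u u'} := by
  obtain ⟨c1, hc1, H⟩ := rect_closed c hc (3 + 2 * K)
  refine ⟨c1 ^ 4, by positivity, ?_⟩
  intro n q hn hreg v s hs hsK
  have hcompl : {ω : Config | ¬ ∃ u ∈ ball v s, ∃ u' ∈ sphere v (3 * s),
      Conn ω (ball v (3 * s)) u u'} = (ArmBox v s (3 * s))ᶜ := rfl
  rw [hcompl]
  have hs' : (1 : ℤ) ≤ s := by exact_mod_cast hs
  have hsK' : (s : ℤ) ≤ K * n := by exact_mod_cast hsK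
  have hK0 : (0 : ℤ) ≤ K * s := by positivity
  have hn0 : (0 : ℤ) ≤ n := by positivity
  have key : ∀ a b y z : ℤ, b - a = 6 * s → z - y = 2 * s →
      c1 ≤ Pr q {ω | ¬ VCross ω a b y z} ∧ c1 ≤ Pr q {ω | ¬ HCross ω y z a b} := by
    intro a b y z h1 h2
    refine H n q hn hreg a b y z (by omega) (by omega) ?_ ?_
    · rw [h1, h2]
      push_cast
      nlinarith
    · rw [h2]
      push_cast
      nlinarith
  have e3 : ((3 * s : ℕ) : ℤ) = 3 * s := by push_cast; ring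
  refine noarm_four hc1.le ?_ ?_ ?_ ?_ (by omega)
  · exact (key _ _ _ _ (by rw [e3]; ring) (by rw [e3]; ring)).2
  · exact (key _ _ _ _ (by rw [e3]; ring) (by rw [e3]; ring)).2
  · exact (key _ _ _ _ (by rw [e3]; ring) (by rw [e3]; ring)).1
  · exact (key _ _ _ _ (by rw [e3]; ring) (by rw [e3]; ring)).1

/-- Rectangles of all places. -/
lemma reg_closed {c : ℝ} {n : ℕ} {q : I} (h : RSWreg c n q) {m : ℕ} (hm : 1 ≤ m) (hmn : m ≤ n)
    {x y x' y' : ℤ} (hx : x' - x ≤ 4 * m) (hx0 : x ≤ x') (hy : (m : ℤ) ≤ y' - y) :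
    c ≤ Pr q {ω | ¬ VCross ω x x' y y'} ∧ c ≤ Pr q {ω | ¬ HCross ω y y' x x'} := by
  have h0 := (h m hm hmn).2
  have h1 : c ≤ Pr q {ω | ¬ VCross ω 0 (x' - x) 0 (y' - y)} :=
    h0.trans (Pr_mono fun ω h hv => h (VCross.mono hv le_rfl hx le_rfl (by omega) hy))
  have h3 := Pr_novcross_translate (p := q) (a := 0) (b := x' - x) (c := 0) (d := y' - y) x y
  have e1 : (0 : ℤ) + x = x := by ring
  have e2 : x' - x + x = x' := by ring
  have e3 : (0 : ℤ) + y = y := by ring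
  have e4 : y' - y + y = y' := by ring
  rw [e1, e2, e3, e4] at h3
  refine ⟨?_, ?_⟩
  · rw [h3]
    exact h1
  · rw [← Pr_novcross_eq, h3]
    exact h1

lemma reg_hcross {c : ℝ} {n : ℕ} {q : I} (h : RSWreg c n q) {m : ℕ} (hm : 1 ≤ m) (hmn : m ≤ n)
    {x y x' y' : ℤ} (hx : x' - x ≤ 4 * m) (hx0 : x ≤ x') (hy : (m : ℤ) ≤ y' - y) :
    c ≤ Pr q {ω | HCross ω x x' y y'} := by
  have h1 : c ≤ Pr q {ω | HCross ω 0 (x' - x) 0 (y' - y)} :=
    ((h m hm hmn).1).trans (Pr_mono fun ω h => HCross.mono h le_rfl (by omega) hx le_rfl hy)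
  have h3 := Pr_hcross_translate (p := q) (a := 0) (b := x' - x) (c := 0) (d := y' - y) x y
  have e1 : (0 : ℤ) + x = x := by ring
  have e2 : x' - x + x = x' := by ring
  have e3 : (0 : ℤ) + y = y := by ring
  have e4 : y' - y + y = y' := by ring
  rw [e1, e2, e3, e4] at h3
  rw [h3]
  exact h1

lemma reg_vcross {c : ℝ} {n : ℕ} {q : I} (h : RSWreg c n q) {m : ℕ} (hm : 1 ≤ m) (hmn : m ≤ n)
    {x y x' y' : ℤ} (hx : y' - y ≤ 4 * m) (hx0 : y ≤ y') (hy : (m : ℤ) ≤ x' - x) :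
    c ≤ Pr q {ω | VCross ω x x' y y'} := by
  rw [Pr_vcross_eq_hcross]
  exact reg_hcross h hm hmn hx hx0 hy

lemma reg_mono_n {c : ℝ} {n n' : ℕ} {q : I} (h : RSWreg c n q) (hn : n' ≤ n) :
    RSWreg c n' q := fun m h1 h2 => h m h1 (h2.trans hn)

lemma reg_mono_c {c c' : ℝ} {n : ℕ} {q : I} (h : RSWreg c n q) (hc : c' ≤ c) :
    RSWreg c' n q := fun m h1 h2 => ⟨hc.trans (h m h1 h2).1, hc.trans (h m h1 h2).2⟩

/-- Annulus crossings have probability bounded away from one. -/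
theorem armBox_reg_le {c : ℝ} (hc : 0 < c) {n : ℕ} {q : I} (h : RSWreg c n q) {s r : ℕ}
    (hr : 2 * s ≤ r) (hr1 : 1 ≤ r) (hrn : r ≤ n) : Pr q (ArmBox 0 s r) ≤ 1 - c ^ 4 := by
  obtain ⟨m, hm⟩ : ∃ m : ℕ, m = r - s := ⟨_, rfl⟩
  have hm1 : 1 ≤ m := by omega
  have hmn : m ≤ n := by omega
  have hd : (m : ℤ) = r - s := by omega
  have k : ∀ a b y z : ℤ, b - a = 2 * r → z - y = m →
      c ≤ Pr q {ω | ¬ VCross ω a b y z} ∧ c ≤ Pr q {ω | ¬ HCross ω y z a b} := by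
    intro a b y z h1 h2
    exact reg_closed h hm1 hmn (by omega) (by omega) (by omega)
  have h4 := noarm_four (v := 0) (s := s) (r := r) hc.le (q := q)
    (k _ _ _ _ (by ring) (by rw [hd]; ring)).2 (k _ _ _ _ (by ring) (by rw [hd]; ring)).2
    (k _ _ _ _ (by ring) (by rw [hd]; ring)).1 (k _ _ _ _ (by ring) (by rw [hd]; ring)).1
    (by omega)
  rw [Pr_compl (localOn_armBox 0 s r)] at h4
  linarith

/-- Intersections of the annulus events at scales `s 16 ^ j`. -/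
def AnnT (s : ℕ) : ℕ → Set Config
  | 0 => Set.univ
  | n + 1 => AnnT s n ∩ Ann (s * 16 ^ n + 2) (s * 16 ^ (n + 1))

lemma localOn_annT (s n : ℕ) : LocalOn (eBall (s * 16 ^ n)) (AnnT s n) := by
  classical
  induction n with
  | zero => exact fun _ _ _ _ => Set.mem_univ _
  | succ n ih =>
    have h1 : s * 16 ^ n ≤ s * 16 ^ (n + 1) :=
      Nat.mul_le_mul_left s (Nat.pow_le_pow_right (by norm_num) (Nat.le_succ n))
    exact (ih.mono (eBall_subset h1)).inter ((localOn_ann _ _).mono Finset.sdiff_subset)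

lemma armBox_subset_annT {s R : ℕ} (hs : 1 ≤ s) (n : ℕ) (h : s * 16 ^ n ≤ R) :
    ArmBox 0 s R ⊆ AnnT s n := by
  induction n with
  | zero => exact Set.subset_univ _
  | succ n ih =>
    have h1 : s * 16 ^ n < s * 16 ^ (n + 1) :=
      Nat.mul_lt_mul_of_pos_left (Nat.pow_lt_pow_right (by norm_num) (Nat.lt_succ_self n)) hs
    have h2 : s * 16 ^ (n + 1) = 16 * (s * 16 ^ n) := by ring
    have h3 : 1 ≤ s * 16 ^ n := Nat.one_le_iff_ne_zero.2 (by positivity)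
    have h4 : s ≤ s * 16 ^ n := Nat.le_mul_of_pos_right s (by positivity)
    exact Set.subset_inter (ih (h1.le.trans h)) (armBox_subset_ann (by omega) (by omega) h)

/-- The sites of the edges of a ball and of the edges off a larger ball. -/
lemma disj_eBall [DecidableEq Edge] (s r : ℕ) :
    Disjoint (hull (eBall s)) (hull (eBall r \ eBall (s + 2))) := by
  refine disj_hull_of (S := ball 0 (s + 1)) ?_ ?_
  · intro e he
    rw [mem_eBall] at he
    obtain ⟨x, y, b⟩ := e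
    cases b <;> simp only [src, tgt, mem_ball, Prod.fst_zero, Prod.snd_zero, if_true,
      Bool.false_eq_true, if_false] at he ⊢ <;> push_cast <;> omega
  · intro e he
    rw [Finset.mem_sdiff, mem_eBall, mem_eBall] at he
    obtain ⟨-, he⟩ := he
    obtain ⟨x, y, b⟩ := e
    cases b <;> simp only [src, tgt, mem_ball, Prod.fst_zero, Prod.snd_zero, if_true,
      Bool.false_eq_true, if_false] at he ⊢ <;> push_cast at he ⊢ <;> omega

/-- Decay of annulus crossings in the box-crossing regime. -/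
theorem armBox_decay0 {c : ℝ} (hc : 0 < c) : ∃ C a : ℝ, 0 < C ∧ 0 < a ∧ a ≤ 1 / 4 ∧
    ∀ (n s R : ℕ) (q : I), RSWreg c n q → 1 ≤ s → s ≤ R → R ≤ n →
      Pr q (ArmBox 0 s R) ≤ C * ((s : ℝ) / R) ^ a := by
  classical
  set c' := min c 1 with hc'
  have hc0 : 0 < c' := lt_min hc one_pos
  have hc1 : c' ≤ 1 := min_le_right _ _
  have hc4 : 0 < c' ^ 4 := by positivity
  have hc41 : c' ^ 4 ≤ 1 := pow_le_one₀ hc0.le hc1
  set t : ℝ := 1 - c' ^ 4 / 2 with ht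
  have ht0 : 0 < t := by linarith
  have ht1 : t < 1 := by linarith
  have hlog : Real.log t < 0 := Real.log_neg ht0 ht1
  have hlog16 : 0 < Real.log 16 := Real.log_pos (by norm_num)
  set a0 : ℝ := - Real.log t / Real.log 16 with ha0
  have ha0p : 0 < a0 := div_pos (neg_pos.2 hlog) hlog16
  refine ⟨1 / t, min a0 (1 / 4), by positivity, lt_min ha0p (by norm_num), min_le_right _ _, ?_⟩
  intro n s R q hreg hs hsR hRn
  have hreg' : RSWreg c' n q := reg_mono_c hreg (min_le_left _ _)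
  -- the probability of the intersection of the annulus events
  have key : ∀ k : ℕ, s * 16 ^ k ≤ n → Pr q (AnnT s k) ≤ t ^ k := by
    intro k
    induction k with
    | zero => intro _; rw [pow_zero]; exact Pr_le_one
    | succ k ih =>
      intro hk
      have hle : s * 16 ^ k ≤ s * 16 ^ (k + 1) :=
        Nat.mul_le_mul_left s (Nat.pow_le_pow_right (by norm_num) (Nat.le_succ k))
      have h1 : Pr q (AnnT s (k + 1)) =
          Pr q (AnnT s k) * Pr q (Ann (s * 16 ^ k + 2) (s * 16 ^ (k + 1))) :=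
        Pr_inter_of_disjoint (localOn_annT s k) (localOn_ann _ _) (disj_eBall _ _)
      have h2 : Pr q (Ann (s * 16 ^ k + 2) (s * 16 ^ (k + 1))) ≤ t := by
        have h6 : 1 ≤ 16 ^ k := Nat.one_le_pow _ _ (by norm_num)
        have h5 : 1 ≤ s * 16 ^ k := Nat.one_le_iff_ne_zero.2 (by positivity)
        have h7 : s * 16 ^ (k + 1) = 16 * (s * 16 ^ k) := by ring
        have h3 : 2 * (s * 16 ^ k + 2 + 1) ≤ s * 16 ^ (k + 1) := by omega
        have h4 := armBox_reg_le hc0 hreg' h3 (by omega) hk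
        have h5 : Pr q (Ann (s * 16 ^ k + 2) (s * 16 ^ (k + 1))) ≤
            Pr q (ArmBox 0 (s * 16 ^ k + 2 + 1) (s * 16 ^ (k + 1))) :=
          Pr_mono (ann_subset_armBox _ _)
        linarith
      rw [h1, pow_succ]
      exact mul_le_mul (ih (hle.trans hk)) h2 Pr_nonneg (pow_nonneg ht0.le k)
  set k := Nat.log 16 (R / s) with hk
  have hRs : R / s ≠ 0 := by
    have : 0 < R / s := Nat.div_pos hsR hs
    omega
  have hk1 : s * 16 ^ k ≤ R := by
    have h1 : 16 ^ k ≤ R / s := Nat.pow_log_le_self 16 hRs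
    calc s * 16 ^ k ≤ s * (R / s) := Nat.mul_le_mul_left s h1
      _ ≤ R := Nat.mul_div_le R s
  have hk2 : R < s * 16 ^ (k + 1) := by
    have h1 : R / s < 16 ^ (k + 1) := Nat.lt_pow_succ_log_self (by norm_num) (R / s)
    rw [mul_comm]
    exact (Nat.div_lt_iff_lt_mul hs).1 h1
  have h1 : Pr q (ArmBox 0 s R) ≤ t ^ k :=
    (Pr_mono (armBox_subset_annT hs k hk1)).trans (key k (hk1.trans hRn))
  have hs0 : (0 : ℝ) < s := by exact_mod_cast hs
  have hR0 : (0 : ℝ) < R := by exact_mod_cast (by omega : 0 < R)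
  have hx0 : 0 < (s : ℝ) / R := by positivity
  have hx1 : (s : ℝ) / R ≤ 1 := by
    rw [div_le_one hR0]
    exact_mod_cast hsR
  have hx2 : ((16 : ℝ) ^ (k + 1))⁻¹ ≤ (s : ℝ) / R := by
    rw [inv_eq_one_div, div_le_div_iff₀ (by positivity) hR0, one_mul]
    exact_mod_cast hk2.le
  have h2 : t ^ (k + 1) ≤ ((s : ℝ) / R) ^ a0 := by
    have h3 : (((16 : ℝ) ^ (k + 1))⁻¹) ^ a0 = t ^ (k + 1) := by
      rw [Real.inv_rpow (by positivity), ← Real.rpow_natCast (16 : ℝ) (k + 1),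
        ← Real.rpow_mul (by norm_num), mul_comm, Real.rpow_mul (by norm_num), Real.rpow_natCast,
        ← inv_pow]
      congr 1
      rw [Real.rpow_def_of_pos (by norm_num)]
      have : Real.log 16 * a0 = - Real.log t := by
        rw [ha0]; field_simp
      rw [this, Real.exp_neg, Real.exp_log ht0, inv_inv]
    rw [← h3]
    exact Real.rpow_le_rpow (by positivity) hx2 ha0p.le
  have h3 : ((s : ℝ) / R) ^ a0 ≤ ((s : ℝ) / R) ^ (min a0 (1 / 4)) :=
    Real.rpow_le_rpow_of_exponent_ge hx0 hx1 (min_le_left _ _)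
  calc Pr q (ArmBox 0 s R) ≤ t ^ k := h1
    _ = 1 / t * t ^ (k + 1) := by rw [pow_succ]; field_simp
    _ ≤ _ := mul_le_mul_of_nonneg_left (h2.trans h3) (by positivity)

/-- One-arm decay in the regime. -/
theorem armBox_decay (c : ℝ) (hc : 0 < c) (K : ℕ) : ∃ C κ : ℝ, 0 < C ∧ 0 < κ ∧
    ∀ (n : ℕ) (q : I), 1 ≤ n → RSWreg c n q → ∀ (v : Vert) (s r : ℕ), 1 ≤ s → s ≤ r → r ≤ K * n →
      Pr q (ArmBox v s r) ≤ C * ((s : ℝ) / r) ^ κ := by
  obtain ⟨c', hc', H⟩ := noarm_ext hc K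
  obtain ⟨C, κ, hC, hκ, -, H2⟩ := armBox_decay0 hc'
  refine ⟨C, κ, hC, hκ, fun n q hn h v s r hs hsr hr => ?_⟩
  rw [Pr_armBox]
  exact H2 (K * n) s r q (H n q hn h) hs hsr hr

end Pool.Agent.H83.SK
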