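import Pool.Agent.H83.SK.Iface
import Pool.Agent.H29.Sep.A4Low
import Pool.Agent.H59.EX.Fact

/-!
# Site percolation, small scales: finite energy
-/

open MeasureTheory ProbabilityTheory unitInterval

namespace Pool.Agent.H83.SK

open Pool.Agent.H89.Perc Pool.Agent.H29.Sep
open Pool.Agent.H59.EX (Src Four closeS_true)

/-- The probability that a site is open. -/
theorem site_open (q : I) (e : Edge) :
    Pool.Agent.H89.Perc.Pr q {ω : Config | ω e = true} = q := a4Low_open q e

theorem site_closed (q : I) (e : Edge) :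
    Pool.Agent.H89.Perc.Pr q {ω : Config | ω e = false} = 1 - q := by
  have hloc : LocalOn {e} {ω : Config | ω e = true} := by
    intro ω ω' h hω
    rw [Set.mem_ofPred_eq, ← h e (Finset.mem_singleton_self e)]
    exact hω
  have h1 : {ω : Config | ω e = false} = {ω : Config | ω e = true}ᶜ := by
    ext ω
    simp
  rw [h1, Pool.Agent.H89.Perc.Pr_compl hloc, site_open]

private theorem a4Low_hcross (q : I) {c : ℝ}
    (h : c ≤ Pr q {ω | HCross ω 0 (4 * ((1 : ℕ) : ℤ)) 0 ((1 : ℕ) : ℤ)}) :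
    c / 16 ≤ (q : ℝ) := by
  have hsub : {ω : Config | sit ω ∈ {ω | HCross ω 0 (4 * ((1 : ℕ) : ℤ)) 0 ((1 : ℕ) : ℤ)}} ⊆
      {ω | ω (0, 0, false) = true} ∪ {ω | ω (0, 1, false) = true} := by
    rintro ω ⟨u, v, hu, hv, hc⟩
    by_contra hno
    simp only [Set.mem_union, Set.mem_ofPred_eq, not_or] at hno
    have hu0 := hc.mem_left
    have hP : v = u := by
      refine hc.induction_right (P := fun w => w = u) rfl ?_
      rintro a b _ ⟨ha', hb', f, hf, ho⟩ rfl
      exfalso
      rw [sit_true] at ho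
      have ho' : ω (sv a) = true := by
        rcases hf with ⟨h3, h4⟩ | ⟨h3, h4⟩
        · rw [h3]; exact ho.1
        · rw [h3]; exact ho.2
      simp only [rect, Set.mem_ofPred_eq, Nat.cast_one] at hu0
      obtain ⟨x, y⟩ := a
      simp only at hu hu0
      subst hu
      have hy : y = 0 ∨ y = 1 := by omega
      rcases hy with rfl | rfl
      · exact hno.1 ho'
      · exact hno.2 ho'
    rw [hP, hu] at hv
    norm_num at hv
  have h1 := (h.trans (Pool.Agent.H89.Perc.Pr_mono hsub)).trans Pool.Agent.H89.Perc.Pr_union_le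
  rw [site_open, site_open] at h1
  have h2 : (0 : ℝ) ≤ q := q.2.1
  linarith

private theorem a4Low_vcross (q : I) {c : ℝ}
    (h : c ≤ Pr q {ω | ¬ VCross ω 0 (4 * ((1 : ℕ) : ℤ)) 0 ((1 : ℕ) : ℤ)}) :
    (q : ℝ) ≤ 1 - c / 16 := by
  have hsub : {ω : Config | sit ω ∈ {ω | ¬ VCross ω 0 (4 * ((1 : ℕ) : ℤ)) 0 ((1 : ℕ) : ℤ)}} ⊆
      {ω | ω (0, 0, false) = false} ∪ {ω | ω (0, 1, false) = false} := by
    intro ω hω
    by_contra hno
    simp only [Set.mem_union, Set.mem_ofPred_eq, not_or, Bool.not_eq_false] at hno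
    refine hω ⟨(0, 0), (0, 1), rfl, rfl, Step.conn ⟨?_, ?_, (0, 0, true), Or.inl ⟨rfl, rfl⟩, ?_⟩⟩
    · simp [rect]
    · simp [rect]
    · rw [sit_true]
      exact ⟨hno.1, hno.2⟩
  have h1 := (h.trans (Pool.Agent.H89.Perc.Pr_mono hsub)).trans Pool.Agent.H89.Perc.Pr_union_le
  rw [site_closed, site_closed] at h1
  have h2 : (q : ℝ) ≤ 1 := q.2.2
  linarith

/-- In the regime the density is bounded away from `0` and `1`. -/
theorem rswreg_density {c : ℝ} {n : ℕ} {q : I} (hn : 1 ≤ n) (h : RSWreg c n q) :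
    c / 16 ≤ (q : ℝ) ∧ (q : ℝ) ≤ 1 - c / 16 := by
  obtain ⟨h1, h2⟩ := h 1 le_rfl hn
  exact ⟨a4Low_hcross q h1, a4Low_vcross q h2⟩

theorem a4_nn (q : I) (r : ℕ) : 0 ≤ a4 q r := add_nonneg Pr_nonneg Pr_nonneg

theorem a4_le_two (q : I) (r : ℕ) : a4 q r ≤ 2 := by
  have h1 : Pr q (Four (s4 false) r) ≤ 1 := Pr_le_one
  have h2 : Pr q (Four (s4 true) r) ≤ 1 := Pr_le_one
  unfold a4
  linarith

theorem s4_mem (b : Bool) {r : ℕ} (hr : 1 ≤ r) :
    (s4 b).x ∈ ball (0 : Vert) r ∧ (s4 b).y ∈ ball (0 : Vert) r := by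
  have h : (1 : ℤ) ≤ r := by exact_mod_cast hr
  cases b
  · simp only [s4, mem_ball, Prod.fst_zero, Prod.snd_zero, Bool.false_eq_true, if_false]
    omega
  · simp only [s4, mem_ball, Prod.fst_zero, Prod.snd_zero, if_true]
    omega

theorem four_anti (b : Bool) {r r' : ℕ} (h1 : 1 ≤ r) (h : r ≤ r') :
    Four (s4 b) r' ⊆ Four (s4 b) r := by
  rcases h.eq_or_lt with h0 | h0
  · subst h0; exact le_rfl
  have hsub : ball (0 : Vert) r ⊆ ball 0 r' := by
    intro w hw
    simp only [mem_ball] at hw ⊢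
    omega
  have hout : ∀ u ∈ sphere (0 : Vert) r', u ∉ ball (0 : Vert) r := by
    rintro u ⟨hu1, hu2⟩ hu3
    simp only [mem_ball] at hu1 hu3
    omega
  rintro ω ⟨⟨u, hu, h2⟩, ⟨u', hu', h3⟩, h4⟩
  obtain ⟨x, hx, hcx⟩ := h2.to_sphere (v := 0) (r := r) (s4_mem b h1).1 (Or.inl (hout u hu))
  obtain ⟨x', hx', hcx'⟩ := h3.to_sphere (v := 0) (r := r) (s4_mem b h1).2 (Or.inl (hout u' hu'))
  exact ⟨⟨x, hx, hcx.mono_set Set.inter_subset_right⟩,
    ⟨x', hx', hcx'.mono_set Set.inter_subset_right⟩, fun h5 => h4 (h5.mono_set hsub)⟩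

theorem a4_anti {q : I} {r r' : ℕ} (h1 : 1 ≤ r) (h : r ≤ r') : a4 q r' ≤ a4 q r :=
  add_le_add (Pr_mono (four_anti false h1 h)) (Pr_mono (four_anti true h1 h))

/-- The sites of the horizontal axis. -/
private def axis : Config := fun e => decide (e.2.1 = 0)

private theorem axis_sub (r : ℕ) (hr : 1 ≤ r) {ω : Config}
    (hω : ∀ e ∈ eRect (-r) r (-r) r, ω e = axis e) : sit ω ∈ Four (s4 false) r := by
  have hr' : (1 : ℤ) ≤ r := by exact_mod_cast hr
  have key : ∀ v : Vert, v ∈ ball (0 : Vert) r → (ω (sv v) = true ↔ v.2 = 0) := by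
    intro v hv
    have h1 : sv v ∈ eRect (-(r : ℤ)) r (-(r : ℤ)) r := by
      rw [mem_eRect, show src (sv v) = v from rfl]
      simpa [ball] using hv
    rw [hω _ h1]
    simp [axis, sv]
  have hstep : ∀ a b : Vert, Step ((s4 false).cut (sit ω)) (ball 0 r) a b →
      a.2 = 0 ∧ b.2 = 0 ∧ a ≠ 0 ∧ b ≠ 0 := by
    rintro a b ⟨ha, hb, e, he, ho⟩
    unfold Src.cut at ho
    rw [closeS_true, sit_true] at ho
    obtain ⟨⟨o1, o2⟩, o3⟩ := ho
    have hE : ∀ e' : Edge, src e' = 0 ∨ tgt e' = 0 → e' ∈ ((s4 false).E0 : Set Edge) := by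
      rintro ⟨x, y, d⟩ h
      simp only [s4, star0, Finset.coe_insert, Finset.coe_singleton, Set.mem_insert_iff,
        Set.mem_singleton_iff]
      cases d
      · simp only [src, tgt, Bool.false_eq_true, if_false, Prod.ext_iff, Prod.fst_zero,
          Prod.snd_zero] at h
        rcases h with ⟨h1, h2⟩ | ⟨h1, h2⟩
        · left; rw [h1, h2]
        · right; right; left
          rw [h2, show x = -1 by omega]
      · simp only [src, tgt, if_true, Prod.ext_iff, Prod.fst_zero, Prod.snd_zero] at h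
        rcases h with ⟨h1, h2⟩ | ⟨h1, h2⟩
        · right; left; rw [h1, h2]
        · right; right; right
          rw [h1, show y = -1 by omega]
    rcases he with ⟨h1, h2⟩ | ⟨h1, h2⟩
    · rw [← h1] at o1
      rw [← h2] at o2
      exact ⟨(key a ha).1 o1, (key b hb).1 o2, fun h => o3 (hE e (Or.inl (h1 ▸ h))),
        fun h => o3 (hE e (Or.inr (h2 ▸ h)))⟩
    · rw [← h2] at o1
      rw [← h1] at o2
      exact ⟨(key a ha).1 o2, (key b hb).1 o1, fun h => o3 (hE e (Or.inr (h1 ▸ h))),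
        fun h => o3 (hE e (Or.inl (h2 ▸ h)))⟩
  have hline : ∀ (x : ℤ), 1 ≤ x → x < r → ((s4 false).cut (sit ω)) (x, 0, false) = true := by
    intro x hx1 hx2
    unfold Src.cut
    rw [closeS_true, sit_true]
    refine ⟨⟨(key _ ?_).2 rfl, (key _ ?_).2 rfl⟩, ?_⟩
    · simp only [src, mem_ball, Prod.fst_zero, Prod.snd_zero]; omega
    · simp only [tgt, mem_ball, Prod.fst_zero, Prod.snd_zero, Bool.false_eq_true, if_false]; omega
    · simp only [s4, star0, Finset.coe_insert, Finset.coe_singleton, Set.mem_insert_iff,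
        Set.mem_singleton_iff, Prod.mk.injEq]
      omega
  have hline' : ∀ (x : ℤ), x < -1 → -(r : ℤ) ≤ x →
      ((s4 false).cut (sit ω)) (x, 0, false) = true := by
    intro x hx1 hx2
    unfold Src.cut
    rw [closeS_true, sit_true]
    refine ⟨⟨(key _ ?_).2 rfl, (key _ ?_).2 rfl⟩, ?_⟩
    · simp only [src, mem_ball, Prod.fst_zero, Prod.snd_zero]; omega
    · simp only [tgt, mem_ball, Prod.fst_zero, Prod.snd_zero, Bool.false_eq_true, if_false]; omega
    · simp only [s4, star0, Finset.coe_insert, Finset.coe_singleton, Set.mem_insert_iff,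
        Set.mem_singleton_iff, Prod.mk.injEq]
      omega
  refine ⟨⟨((r : ℤ), 0), ?_, ?_⟩, ⟨(-(r : ℤ), 0), ?_, ?_⟩, ?_⟩
  · refine ⟨?_, Or.inr (Or.inl (by simp))⟩
    simp only [mem_ball, Prod.fst_zero, Prod.snd_zero]; omega
  · have : ∀ n : ℕ, (n : ℤ) + 1 ≤ r →
        Conn ((s4 false).cut (sit ω)) (ball 0 r) (1, 0) ((n : ℤ) + 1, 0) := by
      intro n
      induction n with
      | zero =>
        intro _
        have : (1, 0) ∈ ball (0 : Vert) r := (s4_mem false hr).1
        simpa using Conn.refl this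
      | succ n ih =>
        intro hn
        have h1 := ih (by push_cast at hn; omega)
        refine h1.tail ⟨h1.mem_right, ?_, ((n : ℤ) + 1, 0, false), Or.inl ⟨rfl, ?_⟩,
          hline _ (by omega) (by push_cast at hn; omega)⟩
        · simp only [mem_ball, Prod.fst_zero, Prod.snd_zero]; push_cast at hn ⊢; omega
        · simp only [tgt, Bool.false_eq_true, if_false]
          push_cast
          rfl
    have h2 := this (r - 1) (by omega)
    rw [show (((r - 1 : ℕ) : ℤ) + 1) = r by omega] at h2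
    exact h2
  · refine ⟨?_, Or.inl (by simp)⟩
    simp only [mem_ball, Prod.fst_zero, Prod.snd_zero]; omega
  · have : ∀ n : ℕ, (n : ℤ) + 1 ≤ r →
        Conn ((s4 false).cut (sit ω)) (ball 0 r) (-1, 0) (-((n : ℤ) + 1), 0) := by
      intro n
      induction n with
      | zero =>
        intro _
        have : (-1, 0) ∈ ball (0 : Vert) r := (s4_mem false hr).2
        simpa using Conn.refl this
      | succ n ih =>
        intro hn
        have h1 := ih (by push_cast at hn; omega)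
        refine h1.tail ⟨h1.mem_right, ?_, (-((n : ℤ) + 1) - 1, 0, false), Or.inr ⟨?_, ?_⟩,
          hline' _ (by omega) (by push_cast at hn; omega)⟩
        · simp only [mem_ball, Prod.fst_zero, Prod.snd_zero]; push_cast at hn ⊢; omega
        · simp only [tgt, Bool.false_eq_true, if_false]
          ext <;> simp
        · simp only [src]
          ext
          · push_cast; ring
          · rfl
    have h2 := this (r - 1) (by omega)
    rw [show (((r - 1 : ℕ) : ℤ) + 1) = r by omega] at h2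
    exact h2
  · intro hc
    have hx : ∀ v : Vert, Conn ((s4 false).cut (sit ω)) (ball 0 r) (s4 false).x v → 1 ≤ v.1 := by
      intro v hv
      refine hv.induction_right (P := fun v => 1 ≤ v.1) ?_ ?_
      · simp [s4]
      · intro a b _ hab ha
        obtain ⟨h1, h2, h3, h4⟩ := hstep a b hab
        have h5 := hab.fst_le
        by_contra h6
        apply h4
        ext
        · simp only [Prod.fst_zero]; omega
        · simpa using h2
    have := hx _ hc
    simp [s4] at this

/-- The four-arm probability at bounded scales is bounded below. -/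
theorem a4_low (c : ℝ) (hc : 0 < c) (r : ℕ) (hr : 1 ≤ r) : ∃ c₀ : ℝ, 0 < c₀ ∧
    ∀ (n : ℕ) (q : I), 1 ≤ n → RSWreg c n q → c₀ ≤ a4 q r := by
  refine ⟨(c / 16) ^ (eRect (-r) r (-r) r).card, by positivity, ?_⟩
  intro n q hn h
  obtain ⟨h1, h2⟩ := rswreg_density hn h
  have h3 := a4Low_cyl q (by positivity) h1 h2 axis (eRect (-r) r (-r) r)
  have h4 : Pool.Agent.H89.Perc.Pr q {ω | ∀ e ∈ eRect (-r) r (-r) r, ω e = axis e} ≤
      Pr q (Four (s4 false) r) := Pool.Agent.H89.Perc.Pr_mono fun ω hω => axis_sub r hr hω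
  have h5 : 0 ≤ Pr q (Four (s4 true) r) := Pr_nonneg
  unfold a4
  linarith

end Pool.Agent.H83.SK
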