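import Pool.Agent.H83.SK.Base
import Pool.Agent.H29.Sep.BlockAnn
import Pool.Agent.H83.SK.Iface

/-!
# A pivotal block of the torus is surrounded by two distinct crossing clusters
-/

open MeasureTheory ProbabilityTheory unitInterval

namespace Pool.Agent.H83.SK

open Pool.Agent.H29.Sep

open Pool.Agent.H89.Perc Pool.Agent.H61.NC

private lemma blockAnn_sphere {r : ℕ} {u v : Vert} :
    ((u.1 - v.1, u.2 - v.2) : Vert) ∈ sphere 0 r ↔ u ∈ sphere v r := by
  simp only [sphere, ball, rect, Set.mem_ofPred_eq, Prod.fst_zero, Prod.snd_zero]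
  omega

private lemma blockAnn_dom {t R : ℕ} {u v : Vert} :
    ((u.1 - v.1, u.2 - v.2) : Vert) ∈ dom t R ↔ u ∈ Pool.Agent.H61.NC.Ring v t R := by
  simp only [dom, Pool.Agent.H61.NC.Ring, ball, rect, Set.mem_sdiff, Set.mem_ofPred_eq,
    Prod.fst_zero, Prod.snd_zero]
  omega

/-- The annulus events at `v` and at `0`. -/
private lemma blockAnn_shift {ω : Config} {v : Vert} {t R : ℕ} (h : ω ∈ Two v t R) :
    (fun e => ω (shiftE v e)) ∈ A2 t R := by
  obtain ⟨u, u', hu, hu', ⟨w, hw, h1⟩, ⟨w', hw', h2⟩, h3⟩ := h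
  have hset : {w : Vert | (w.1 - v.1, w.2 - v.2) ∈ dom t R} = Pool.Agent.H61.NC.Ring v t R := by
    ext w
    exact blockAnn_dom
  have key : ∀ x y : Vert, Conn (fun e => ω (shiftE v e)) (dom t R)
      (x.1 - v.1, x.2 - v.2) (y.1 - v.1, y.2 - v.2) ↔
      Conn ω (Pool.Agent.H61.NC.Ring v t R) x y := by
    intro x y
    rw [conn_shift v (dom t R), hset]
    simp only [sub_add_cancel, Prod.mk.eta]
  refine ⟨_, blockAnn_sphere.2 hw, _, blockAnn_sphere.2 hw', _, blockAnn_sphere.2 hu, _,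
    blockAnn_sphere.2 hu', (key _ _).2 h1.symm, (key _ _).2 h2.symm, ?_⟩
  rw [key]
  exact fun h4 => h3 ((h1.trans h4).trans h2.symm)

private lemma blockAnn_local (t R : ℕ) : LocalOn (eRect (-R) R (-R) R) (A2 t R) := by
  rintro ω ω' h ⟨u, hu, u', hu', v, hv, v', hv', h1, h2, h3⟩
  have hmem : ∀ e : Edge, src e ∈ dom t R → e ∈ eRect (-(R : ℤ)) R (-R) R := by
    intro e he
    rw [mem_eRect]
    have := he.1
    simp only [ball, rect, Set.mem_ofPred_eq, Prod.fst_zero, Prod.snd_zero] at this ⊢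
    omega
  refine ⟨u, hu, u', hu', v, hv, v', hv', h1.congr fun e he _ => h e (hmem e he),
    h2.congr fun e he _ => h e (hmem e he), fun h4 => h3 ?_⟩
  exact h4.congr fun e he _ => (h e (hmem e he)).symm

theorem sitT_shift (N : ℕ) (v : Vert) (ω : Config) :
    (fun e => sitT N ω (shiftE v e)) = sit (fun e => ω (modE N (shiftE v e))) := by
  funext ⟨x, y, b⟩
  cases b
  · simp only [sitT, per, sit, sv, src, tgt, shiftE, modE, Bool.false_eq_true, if_false]
    rw [show x + v.1 + 1 = x + 1 + v.1 by ring]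
  · simp only [sitT, per, sit, sv, src, tgt, shiftE, modE, if_true]
    rw [show y + v.2 + 1 = y + 1 + v.2 by ring]

/-- Local events at an arbitrary place of the torus. -/
theorem PrT_shift_eq {N : ℕ} {q : I} {s : Finset Edge} {A : Set Config} (v : Vert)
    (hA : LocalOn s A) (hinj : Set.InjOn (fun e => modE N (shiftE v e)) (hull s : Set Edge)) :
    PrT N q {η | (fun e => η (shiftE v e)) ∈ A} = Pr q A := by
  unfold PrT Pr
  have h1 : {ω : Config | sitT N ω ∈ {η : Config | (fun e => η (shiftE v e)) ∈ A}} =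
      {ω : Config | (fun e => ω (modE N (shiftE v e))) ∈ {ω | sit ω ∈ A}} := by
    ext ω
    simp only [Set.mem_ofPred_eq]
    rw [sitT_shift]
  rw [h1]
  exact Pool.Agent.H89.Perc.Pr_comp (s := hull s) (localOn_sit hA) hinj

theorem mem_blkS {N r : ℕ} {e : Edge} : e ∈ blkS N r ↔
    e.2.2 = false ∧ mid N - r ≤ e.1 ∧ e.1 ≤ mid N + r ∧ mid N - r ≤ e.2.1 ∧ e.2.1 ≤ mid N + r := by
  classical
  unfold blkS
  rw [Finset.mem_filter, blk, mem_eRect]
  simp only [src, rect, Set.mem_ofPred_eq]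
  tauto

theorem mem_blk {N r : ℕ} {e : Edge} : e ∈ blk N r ↔
    mid N - r ≤ e.1 ∧ e.1 ≤ mid N + r ∧ mid N - r ≤ e.2.1 ∧ e.2.1 ≤ mid N + r := by
  unfold blk
  rw [mem_eRect]
  simp only [src, rect, Set.mem_ofPred_eq]

/-- If the reduced edge is not in the larger block, the two sites are not in the block. -/
theorem blk_off {N ρ : ℕ} (hN : 2 * ρ + 2 ≤ N) {e : Edge} (he : modE N e ∉ blk N (ρ + 1)) :
    modE N (sv (src e)) ∉ blkS N ρ ∧ modE N (sv (tgt e)) ∉ blkS N ρ := by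
  have hN' : (2 * ρ + 2 : ℤ) ≤ N := by exact_mod_cast hN
  have hmid : (ρ : ℤ) + 1 ≤ mid N := by
    unfold mid
    omega
  have hN0 : (0 : ℤ) < N := by omega
  have hdec : ∀ z : ℤ, 1 ≤ (z + 1) % N → z % N = (z + 1) % N - 1 := by
    intro z hz
    have h1 := Int.emod_lt_of_pos (z + 1) hN0
    have h2 : ((z + 1) - 1) % N = ((z + 1) % N - 1) % N :=
      (Int.emod_sub_emod (z + 1) N 1).symm
    rw [add_sub_cancel_right] at h2
    rw [h2]
    exact Int.emod_eq_of_lt (by omega) (by omega)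
  obtain ⟨x, y, b⟩ := e
  rw [mem_blk] at he
  rw [mem_blkS, mem_blkS]
  push_cast at he
  cases b
  · simp only [modE, sv, src, tgt, Bool.false_eq_true, if_false, true_and] at he ⊢
    constructor
    · omega
    · intro h
      have := hdec x (by omega)
      omega
  · simp only [modE, sv, src, tgt, if_true, true_and] at he ⊢
    constructor
    · omega
    · intro h
      have := hdec y (by omega)
      omega

theorem fill_apply (s : Finset Edge) (b : Bool) (ω : Config) (e : Edge) :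
    (e ∈ s → fill s b ω e = b) ∧ (e ∉ s → fill s b ω e = ω e) := by
  classical
  unfold fill
  exact ⟨fun h => if_pos h, fun h => if_neg h⟩

theorem sitT_fill {N ρ : ℕ} (hN : 2 * ρ + 2 ≤ N) {e : Edge} (he : modE N e ∉ blk N (ρ + 1))
    (b : Bool) (ω : Config) : sitT N (fill (blkS N ρ) b ω) e = sitT N ω e := by
  obtain ⟨h1, h2⟩ := blk_off hN he
  have e1 := (fill_apply (blkS N ρ) b ω (modE N (sv (src e)))).2 h1
  have e2 := (fill_apply (blkS N ρ) b ω (modE N (sv (tgt e)))).2 h2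
  show (fill (blkS N ρ) b ω (modE N (sv (src e))) && fill (blkS N ρ) b ω (modE N (sv (tgt e)))) =
    (ω (modE N (sv (src e))) && ω (modE N (sv (tgt e))))
  rw [e1, e2]

theorem per_fill_sitT (N r : ℕ) (b : Bool) (ω : Config) (e : Edge) :
    (modE N e ∈ blk N r → per N (fill (blk N r) b (sitT N ω)) e = b) ∧
      (modE N e ∉ blk N r → per N (fill (blk N r) b (sitT N ω)) e = sitT N ω e) := by
  constructor
  · intro h
    exact (fill_apply _ _ _ _).1 h
  · intro h
    have h1 : per N (fill (blk N r) b (sitT N ω)) e = sitT N ω (modE N e) :=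
      (fill_apply _ _ _ _).2 h
    rw [h1]
    exact congrFun (per_sitT N ω) e

/-- The edges of the blocks: from the sites to the edges. -/
theorem blockPiv_bond {N ρ : ℕ} (hN : 2 * ρ + 2 ≤ N) {ω : Config} (h : ω ∈ BlockPiv N ρ) :
    sitT N ω ∈ Pool.Agent.H61.NC.BlockPiv N (ρ + 1) := by
  obtain ⟨⟨u, a, b, ha, hc⟩, hno⟩ := h
  refine ⟨⟨u, a, b, ha, hc.mono le_rfl fun e he => ?_⟩, ?_⟩
  · rw [per_sitT] at he
    by_cases h1 : modE N e ∈ blk N (ρ + 1)
    · exact (per_fill_sitT N (ρ + 1) true ω e).1 h1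
    · rw [(per_fill_sitT N (ρ + 1) true ω e).2 h1]
      rwa [sitT_fill hN h1] at he
  · rintro ⟨u', a', b', ha', hc'⟩
    refine hno ⟨u', a', b', ha', hc'.mono le_rfl fun e he => ?_⟩
    rw [per_sitT]
    by_cases h1 : modE N e ∈ blk N (ρ + 1)
    · rw [(per_fill_sitT N (ρ + 1) false ω e).1 h1] at he
      exact absurd he (by simp)
    · rw [(per_fill_sitT N (ρ + 1) false ω e).2 h1] at he
      rwa [sitT_fill hN h1]

theorem modE_inj_box {N R : ℕ} (h3 : 2 * R + 1 ≤ N) :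
    Set.InjOn (fun e => modE N (shiftE (mid N, mid N) e))
      {e : Edge | -(R : ℤ) ≤ e.1 ∧ e.1 ≤ R ∧ -(R : ℤ) ≤ e.2.1 ∧ e.2.1 ≤ R} := by
  intro e he e' he' hee
  simp only [Set.mem_ofPred_eq] at he he'
  simp only [modE, shiftE, Prod.mk.injEq] at hee
  obtain ⟨x, y, d⟩ := e
  obtain ⟨x', y', d'⟩ := e'
  simp only at he he' hee
  obtain ⟨hx, hy, hd⟩ := hee
  have key : ∀ a b : ℤ, -(R : ℤ) ≤ a → a ≤ R → -(R : ℤ) ≤ b → b ≤ R →
      (a + mid N) % N = (b + mid N) % N → a = b := by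
    intro a b ha1 ha2 hb1 hb2 hab
    have h5 : (N : ℤ) ∣ (b + mid N) - (a + mid N) :=
      Int.ModEq.dvd (show a + mid N ≡ b + mid N [ZMOD N] from hab)
    have h6 : (b + mid N) - (a + mid N) = b - a := by ring
    rw [h6] at h5
    have h7 : |b - a| < N := by
      rw [abs_lt]
      constructor <;> omega
    have := Int.eq_zero_of_abs_lt_dvd h5 h7
    omega
  rw [key x x' he.1 he.2.1 he'.1 he'.2.1 hx, key y y' he.2.2.1 he.2.2.2 he'.2.2.1 he'.2.2.2 hy,
    hd]

/-- The sites of the edges in a box. -/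
theorem hull_eRect (R : ℕ) : (hull (eRect (-(R : ℤ)) R (-(R : ℤ)) R) : Set Edge) ⊆
    {e : Edge | -((R + 1 : ℕ) : ℤ) ≤ e.1 ∧ e.1 ≤ (R + 1 : ℕ) ∧ -((R + 1 : ℕ) : ℤ) ≤ e.2.1 ∧
      e.2.1 ≤ (R + 1 : ℕ)} := by
  intro g hg
  rw [Finset.mem_coe, mem_hull] at hg
  obtain ⟨⟨x, y, d⟩, he, hg⟩ := hg
  rw [mem_eRect] at he
  simp only [src, rect, Set.mem_ofPred_eq] at he
  rcases hg with rfl | rfl
  · simp only [sv, src, Set.mem_ofPred_eq]
    push_cast
    omega
  · cases d
    · simp only [sv, tgt, Bool.false_eq_true, if_false, Set.mem_ofPred_eq]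
      push_cast
      omega
    · simp only [sv, tgt, if_true, Set.mem_ofPred_eq]
      push_cast
      omega

theorem blockPiv_le {N ρ R : ℕ} (q : I) (h1 : 1 ≤ ρ) (h2 : ρ + 3 ≤ R) (h3 : 4 * R ≤ N) :
    Pool.Agent.H89.Perc.Pr q (BlockPiv N ρ) ≤ Pr q (A2 (ρ + 3) R) := by
  have hinj : Set.InjOn (fun e => modE N (shiftE (mid N, mid N) e))
      (hull (eRect (-(R : ℤ)) R (-R) R) : Set Edge) :=
    (modE_inj_box (R := R + 1) (by omega)).mono (hull_eRect R)
  rw [← PrT_shift_eq (mid N, mid N) (blockAnn_local (ρ + 3) R) hinj]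
  refine Pool.Agent.H89.Perc.Pr_mono fun ω hω => ?_
  have h4 := blockPiv_bond (by omega) hω
  have h5 := two_of_blockPiv (N := N) (R := ρ + 1) (t := ρ + 3) (R' := R) (by omega) h2
    (by omega) h4
  rw [per_sitT] at h5
  exact blockAnn_shift h5

end Pool.Agent.H83.SK
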