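import Pool.Agent.H83.SK.Base
import Pool.Agent.H29.Sep.ExplA
import Pool.Agent.H59.EX.S0

/-!
# Site percolation: exploration of full clusters and conditional FKG

`cl ω D X` is the open cluster of the vertex set `X` inside the vertex set `D`.  The event
`cl ω D X = S` only depends on the sites of the edges touching `S`.
-/

open MeasureTheory ProbabilityTheory unitInterval

namespace Pool.Agent.H83.SK

open Pool.Agent.H29.Sep

open Pool.Agent.H89.Perc

variable {p : I}

/-- Opening edges makes an increasing event more likely. -/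
theorem Pr_le_wide {s T : Finset Edge} {A : Set Config} (_h : LocalOn s A) (iA : Incr A) :
    Pr p A ≤ Pr p {ω | wide T ω ∈ A} := by
  refine Pr_mono fun ω hω => iA ω (wide T ω) (fun e he => ?_) hω
  unfold wide
  by_cases hT : e ∈ T
  · exact if_pos hT
  · rw [if_neg hT]
    exact he

/-- Closing edges makes a decreasing event more likely. -/
theorem Pr_le_shut {s T : Finset Edge} {A : Set Config} (_h : LocalOn s A) (iA : Incr Aᶜ) :
    Pr p A ≤ Pr p {ω | shut T ω ∈ A} := by
  refine Pr_mono fun ω hω => ?_
  by_contra hcon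
  refine iA (shut T ω) ω (fun e he => ?_) hcon hω
  unfold shut at he
  by_cases hT : e ∈ T
  · rw [if_pos hT] at he
    exact absurd he Bool.false_ne_true
  · rwa [if_neg hT] at he

/-- Conditional Harris inequality for the sites: `E` depends on the sites of `s`, `A` and `O` are
increasing, `O` does not depend on the sites of `s`. -/
theorem site_fkg_cond {u v w : Finset Edge} {E A O : Set Config} (hE : LocalOn u E)
    (hA : LocalOn v A) (hO : LocalOn w O) (iA : Incr A) (iO : Incr O) (hd : Disjoint u w) :
    Pool.Agent.H89.Perc.Pr p (E ∩ A) * Pool.Agent.H89.Perc.Pr p O ≤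
      Pool.Agent.H89.Perc.Pr p (E ∩ A ∩ O) := by
  classical
  have hE' : LocalOn (u ∪ (v ∪ w)) E := hE.mono (by intro e he; simp [he])
  have hA' : LocalOn (u ∪ (v ∪ w)) A := hA.mono (by intro e he; simp [he])
  have hO' : LocalOn (u ∪ (v ∪ w)) O := hO.mono (by intro e he; simp [he])
  refine Pool.Agent.H59.EX.fkg_cond (q := p) (t := (↑u : Set Edge)) hE'
    (fun ω ω' h => hE ω ω' fun e he => h e (Finset.mem_coe.2 he)) hA' iA hO' ?_ iO
  intro ω ω' h
  refine hO ω ω' fun e he => h e ?_
  intro h'
  exact Finset.disjoint_left.1 hd (Finset.mem_coe.1 h') he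

end Pool.Agent.H83.SK
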