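import Pool.Agent.H83.SK.Base
import Pool.Agent.H29.Sep.ExplB
import Pool.Agent.H83.SK.P29.ExplA

/-!
# Conditional FKG and conditional independence after an exploration
-/

open MeasureTheory ProbabilityTheory unitInterval

namespace Pool.Agent.H83.SK

open Pool.Agent.H29.Sep

open Pool.Agent.H89.Perc

variable {p : I}

private theorem ExplB_union {ι : Type*} (F : Finset ι) (A : ι → Set Config)
    (t : ι → Finset Edge) (hA : ∀ i ∈ F, LocalOn (t i) (A i))
    (hd : ∀ i ∈ F, ∀ j ∈ F, i ≠ j → Disjoint (A i) (A j)) :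
    Pr p (⋃ i ∈ F, A i) = ∑ i ∈ F, Pr p (A i) := by
  exact Pr_biUnion F A t hA hd

/-- Conditional FKG: the values `E i` of an exploration are disjoint events, the events `A i` and
`O i` are increasing, `O i` is an event of fresh sites. -/
theorem cond_fkg {ι : Type*} (F : Finset ι) (E A O : ι → Set Config) (tE tA tO : ι → Finset Edge)
    {c : ℝ} (hc : 0 ≤ c)
    (hdisj : ∀ i ∈ F, ∀ j ∈ F, i ≠ j → Disjoint (E i) (E j))
    (hE : ∀ i ∈ F, LocalOn (tE i) (E i)) (hA : ∀ i ∈ F, LocalOn (tA i) (A i))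
    (hO : ∀ i ∈ F, LocalOn (tO i) (O i)) (iA : ∀ i ∈ F, Incr (A i)) (iO : ∀ i ∈ F, Incr (O i))
    (h2 : ∀ i ∈ F, Disjoint (hull (tE i)) (hull (tO i)))
    (hP : ∀ i ∈ F, c ≤ Pr p (O i)) :
    c * Pr p (⋃ i ∈ F, E i ∩ A i) ≤ Pr p (⋃ i ∈ F, E i ∩ (A i ∩ O i)) := by
  classical
  rw [ExplB_union F (fun i => E i ∩ (A i ∩ O i)) (fun i => tE i ∪ (tA i ∪ tO i))
    (fun i hi => (hE i hi).inter' ((hA i hi).inter' (hO i hi)))
    (fun i hi j hj hij => (hdisj i hi j hj hij).mono Set.inter_subset_left Set.inter_subset_left)]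
  calc c * Pr p (⋃ i ∈ F, E i ∩ A i) ≤ c * ∑ i ∈ F, Pr p (E i ∩ A i) :=
        mul_le_mul_of_nonneg_left (Pr_biUnion_le F _) hc
    _ = ∑ i ∈ F, c * Pr p (E i ∩ A i) := Finset.mul_sum _ _ _
    _ ≤ ∑ i ∈ F, Pr p (E i ∩ (A i ∩ O i)) := by
        refine Finset.sum_le_sum fun i hi => ?_
        have h3 := site_fkg_cond (p := p) (localOn_sit (hE i hi)) (localOn_sit (hA i hi))
          (localOn_sit (hO i hi)) (incr_sit (iA i hi)) (incr_sit (iO i hi)) (h2 i hi)
        have h4 : Pr p (E i ∩ A i) * Pr p (O i) ≤ Pr p (E i ∩ (A i ∩ O i)) := by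
          rw [← Set.inter_assoc]
          exact h3
        refine le_trans ?_ h4
        rw [mul_comm]
        exact mul_le_mul_of_nonneg_left (hP i hi) Pr_nonneg

/-- Conditional independence (used for the seals): the events `O i` are events of fresh sites. -/
theorem cond_indep {ι : Type*} (F : Finset ι) (E O : ι → Set Config) (tE tO : ι → Finset Edge)
    {c : ℝ} (hc : 0 ≤ c)
    (hdisj : ∀ i ∈ F, ∀ j ∈ F, i ≠ j → Disjoint (E i) (E j))
    (hE : ∀ i ∈ F, LocalOn (tE i) (E i)) (hO : ∀ i ∈ F, LocalOn (tO i) (O i))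
    (h2 : ∀ i ∈ F, Disjoint (hull (tE i)) (hull (tO i))) (hP : ∀ i ∈ F, c ≤ Pr p (O i)) :
    c * Pr p (⋃ i ∈ F, E i) ≤ Pr p (⋃ i ∈ F, E i ∩ O i) := by
  classical
  rw [ExplB_union F (fun i => E i ∩ O i) (fun i => tE i ∪ tO i)
    (fun i hi => (hE i hi).inter' (hO i hi))
    (fun i hi j hj hij => (hdisj i hi j hj hij).mono Set.inter_subset_left Set.inter_subset_left)]
  calc c * Pr p (⋃ i ∈ F, E i) ≤ c * ∑ i ∈ F, Pr p (E i) :=
        mul_le_mul_of_nonneg_left (Pr_biUnion_le F _) hc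
    _ = ∑ i ∈ F, c * Pr p (E i) := Finset.mul_sum _ _ _
    _ ≤ ∑ i ∈ F, Pr p (E i ∩ O i) := by
        refine Finset.sum_le_sum fun i hi => ?_
        rw [Pr_inter_of_disjoint (hE i hi) (hO i hi) (h2 i hi), mul_comm]
        exact mul_le_mul_of_nonneg_left (hP i hi) Pr_nonneg

/-- Upper bound form: given the exploration, the event `O i` of fresh sites has probability at most
`c` (the `E i` need not be disjoint; the sum of their probabilities is the expected number). -/
theorem cond_le {ι : Type*} (F : Finset ι) (E O : ι → Set Config) (tE tO : ι → Finset Edge)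
    {c : ℝ} (hE : ∀ i ∈ F, LocalOn (tE i) (E i)) (hO : ∀ i ∈ F, LocalOn (tO i) (O i))
    (h2 : ∀ i ∈ F, Disjoint (hull (tE i)) (hull (tO i))) (hP : ∀ i ∈ F, Pr p (O i) ≤ c) :
    Pr p (⋃ i ∈ F, E i ∩ O i) ≤ c * ∑ i ∈ F, Pr p (E i) := by
  calc Pr p (⋃ i ∈ F, E i ∩ O i) ≤ ∑ i ∈ F, Pr p (E i ∩ O i) := Pr_biUnion_le F _
    _ ≤ ∑ i ∈ F, c * Pr p (E i) := by
        refine Finset.sum_le_sum fun i hi => ?_
        rw [Pr_inter_of_disjoint (hE i hi) (hO i hi) (h2 i hi), mul_comm]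
        exact mul_le_mul_of_nonneg_right (hP i hi) Pr_nonneg
    _ = c * ∑ i ∈ F, Pr p (E i) := (Finset.mul_sum _ _ _).symm

private theorem ExplB_inter {ι : Type*} [DecidableEq Edge] (F : Finset ι) (A : ι → Set Config)
    (t : ι → Finset Edge) (hA : ∀ i ∈ F, LocalOn (t i) (A i)) :
    LocalOn (F.biUnion t) (⋂ i ∈ F, A i) := by
  intro ω ω' hω h
  rw [Set.mem_iInter₂] at h ⊢
  intro i hi
  exact hA i hi ω ω' (fun e he => hω e (Finset.mem_biUnion.2 ⟨i, hi, he⟩)) (h i hi)

/-- Finite intersections of decreasing local events: Harris inequality. -/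
theorem fkg_decr_many {ι : Type*} (F : Finset ι) (A : ι → Set Config) (t : ι → Finset Edge)
    {c : ℝ} (hc : 0 ≤ c) (hA : ∀ i ∈ F, LocalOn (t i) (A i)) (iA : ∀ i ∈ F, Incr (A i)ᶜ)
    (hP : ∀ i ∈ F, c ≤ Pr p (A i)) : c ^ F.card ≤ Pr p (⋂ i ∈ F, A i) := by
  classical
  induction F using Finset.induction_on with
  | empty => simp [Pr_univ]
  | insert a F ha ih =>
    rw [Finset.card_insert_of_notMem ha, Finset.set_biInter_insert, pow_succ']
    have hF : ∀ i ∈ F, i ∈ insert a F := fun i hi => Finset.mem_insert_of_mem hi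
    have haF : a ∈ insert a F := Finset.mem_insert_self _ _
    have h1 := ih (fun i hi => hA i (hF i hi)) (fun i hi => iA i (hF i hi))
      (fun i hi => hP i (hF i hi))
    have h2 : Incr (⋂ i ∈ F, A i)ᶜ := by
      intro ω ω' hω h h3
      apply h
      rw [Set.mem_iInter₂] at h3 ⊢
      intro i hi
      by_contra h4
      exact iA i (hF i hi) ω ω' hω h4 (h3 i hi)
    refine le_trans ?_ (fkg_decr (hA a haF) (ExplB_inter F A t (fun i hi => hA i (hF i hi)))
      (iA a haF) h2)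
    exact mul_le_mul (hP a haF) h1 (pow_nonneg hc _) Pr_nonneg

/-- Finite intersections of increasing local events: Harris inequality. -/
theorem fkg_many {ι : Type*} (F : Finset ι) (A : ι → Set Config) (t : ι → Finset Edge)
    {c : ℝ} (hc : 0 ≤ c) (hA : ∀ i ∈ F, LocalOn (t i) (A i)) (iA : ∀ i ∈ F, Incr (A i))
    (hP : ∀ i ∈ F, c ≤ Pr p (A i)) : c ^ F.card ≤ Pr p (⋂ i ∈ F, A i) := by
  classical
  induction F using Finset.induction_on with
  | empty => simp [Pr_univ]
  | insert a F ha ih =>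
    rw [Finset.card_insert_of_notMem ha, Finset.set_biInter_insert, pow_succ']
    have hF : ∀ i ∈ F, i ∈ insert a F := fun i hi => Finset.mem_insert_of_mem hi
    have haF : a ∈ insert a F := Finset.mem_insert_self _ _
    have h1 := ih (fun i hi => hA i (hF i hi)) (fun i hi => iA i (hF i hi))
      (fun i hi => hP i (hF i hi))
    have h2 : Incr (⋂ i ∈ F, A i) := by
      intro ω ω' hω h
      rw [Set.mem_iInter₂] at h ⊢
      intro i hi
      exact iA i (hF i hi) ω ω' hω (h i hi)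
    refine le_trans ?_ (fkg (hA a haF) (ExplB_inter F A t (fun i hi => hA i (hF i hi)))
      (iA a haF) h2)
    exact mul_le_mul (hP a haF) h1 (pow_nonneg hc _) Pr_nonneg

end Pool.Agent.H83.SK
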